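import Pool.Agent.Y366.TC.Main

/-!
# Strong edge colourings of truncations of arbitrary graphs of maximum degree three

`truncation G` is defined in `Pool/Agent/Helper850/TC/Defs.lean` for every simple graph `G`: its
vertices are the darts (ordered adjacent pairs) `(v, w)` of `G`; all darts at the same vertex `v`
are adjacent, and `(v, w)` is adjacent to `(w, v)`. So every vertex `v` of `G` is replaced by a
complete graph on the edges at `v`. For cubic `G` this is the truncation of the problem.

The starting file `TruncatedCubic` proves that the strong chromatic index of the truncation is six
for finite cubic graphs. Here `G` is an arbitrary simple graph, finite or infinite, not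
necessarily regular: the truncation has a strong edge colouring with six colours if and only if all
degrees are at most three, and the strong chromatic index is exactly six whenever the maximum
degree is exactly three.

Proof: a finite graph `H` of maximum degree at most three is contained in a finite cubic graph on
`V(H) × {0,1}³` (eight copies of `H`, joined along directions of the cube), the truncation is
monotone, and infinite graphs follow from a compactness argument for the conflict graph of the
edges. A vertex with `k` neighbours gives `(k+1) choose 2` edges that are pairwise in conflict.
-/

set_option autoImplicit false

namespace Pool.Agent.Results.MP_40dd6f_co.MaximumDegreeThree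

open SimpleGraph Pool.Agent.Helper850.TC

/-- For every simple graph `G`, finite or infinite: (1) the truncation of `G` has a strong edge
colouring with six colours if and only if every vertex of `G` has at most three neighbours;
(2) if every vertex of `G` has at most three neighbours and some vertex has exactly three, then the
strong chromatic index of the truncation is exactly six. -/
theorem result {V : Type*} (G : SimpleGraph V) :
    (StrongColorable (truncation G) 6 ↔ ∀ v, (G.neighborSet v).encard ≤ 3) ∧
      ((∀ v, (G.neighborSet v).encard ≤ 3) → (∃ v, (G.neighborSet v).encard = 3) →
        strongChromaticIndex (truncation G) = 6) :=
  ⟨Pool.Agent.Y366.TC.six_iff G, Pool.Agent.Y366.TC.index_six G⟩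

/-- In particular the strong chromatic index is six for every nonempty cubic graph, finite or
infinite. -/
theorem cubic {V : Type*} [Nonempty V] (G : SimpleGraph V)
    (hG : ∀ v, (G.neighborSet v).encard = 3) : strongChromaticIndex (truncation G) = 6 := by
  obtain ⟨v⟩ := (inferInstance : Nonempty V)
  exact (result G).2 (fun v => (hG v).le) ⟨v, hG v⟩

end Pool.Agent.Results.MP_40dd6f_co.MaximumDegreeThree
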